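import Pool.Agent.H503R3.FR.Stmts

/-! Task SFR: the polynomial ring in three variables is strongly F-regular. -/

set_option autoImplicit false

open MvPolynomial

namespace H503R3.FR.SFR474

variable {k : Type} [Field k]

/-- the exponent map `m ↦ q m + m₀` -/
noncomputable def g (q : ℕ) (m₀ : Fin 3 →₀ ℕ) (m : Fin 3 →₀ ℕ) : Fin 3 →₀ ℕ := q • m + m₀

theorem g_inj {q : ℕ} (hq : 0 < q) (m₀ : Fin 3 →₀ ℕ) : Function.Injective (g q m₀) := by
  intro a b h
  unfold g at h
  have h' := add_right_cancel h
  ext i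
  have := DFunLike.congr_fun h' i
  simp only [Finsupp.smul_apply, smul_eq_mul] at this
  exact Nat.eq_of_mul_eq_mul_left hq this

/-- the map on polynomials -/
noncomputable def phi0 {q : ℕ} (hq : 0 < q) (m₀ : Fin 3 →₀ ℕ) (rt : k →+ k) (f : D k) : D k :=
  ∑ m ∈ f.support.preimage (g q m₀) (g_inj hq m₀).injOn, monomial m (rt (coeff (g q m₀ m) f))

theorem coeff_phi0 {q : ℕ} (hq : 0 < q) (m₀ : Fin 3 →₀ ℕ) (rt : k →+ k) (f : D k)
    (m : Fin 3 →₀ ℕ) : coeff m (phi0 hq m₀ rt f) = rt (coeff (g q m₀ m) f) := by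
  classical
  unfold phi0
  rw [coeff_sum]
  simp only [coeff_monomial]
  rw [Finset.sum_ite_eq']
  split_ifs with h
  · rfl
  · rw [Finset.mem_preimage, mem_support_iff, not_not] at h
    rw [h, map_zero]

/-- the additive map on polynomials -/
noncomputable def phi {q : ℕ} (hq : 0 < q) (m₀ : Fin 3 →₀ ℕ) (rt : k →+ k) : D k →+ D k where
  toFun := phi0 hq m₀ rt
  map_zero' := by
    ext m
    rw [coeff_phi0, coeff_zero, map_zero, coeff_zero]
  map_add' := by
    intro a b
    ext m
    rw [coeff_phi0, coeff_add, map_add, coeff_add, coeff_phi0, coeff_phi0]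

theorem coeff_phi {q : ℕ} (hq : 0 < q) (m₀ : Fin 3 →₀ ℕ) (rt : k →+ k) (f : D k)
    (m : Fin 3 →₀ ℕ) : coeff m (phi hq m₀ rt f) = rt (coeff (g q m₀ m) f) :=
  coeff_phi0 hq m₀ rt f m

theorem phi_mul {q : ℕ} (hq : 0 < q) (m₀ : Fin 3 →₀ ℕ) (hm : ∀ i, m₀ i < q) (rt : k →+ k)
    (hrt : ∀ x y : k, rt (x ^ q * y) = x * rt y)
    (hadd : ∀ a b : D k, (a + b) ^ q = a ^ q + b ^ q) (a d : D k) :
    phi hq m₀ rt (a ^ q * d) = a * phi hq m₀ rt d := by
  classical
  induction a using MvPolynomial.induction_on' with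
  | add p r hp hr => rw [hadd, add_mul, map_add, hp, hr, add_mul]
  | monomial n x =>
    rw [monomial_pow]
    ext m
    rw [coeff_phi, coeff_monomial_mul', coeff_monomial_mul', coeff_phi]
    have hiff : q • n ≤ g q m₀ m ↔ n ≤ m := by
      constructor
      · intro h i
        have h1 := h i
        simp only [g, Finsupp.smul_apply, smul_eq_mul, Finsupp.add_apply] at h1
        by_contra hlt
        push Not at hlt
        have h2 : q * (m i + 1) ≤ q * n i := Nat.mul_le_mul_left q hlt
        have h3 := hm i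
        rw [mul_add, mul_one] at h2
        omega
      · intro h i
        have h1 := h i
        simp only [g, Finsupp.smul_apply, smul_eq_mul, Finsupp.add_apply]
        have := Nat.mul_le_mul_left q h1
        omega
    by_cases h : n ≤ m
    · rw [if_pos h, if_pos (hiff.2 h), hrt]
      congr 3
      ext i
      have h1 := h i
      simp only [g, Finsupp.smul_apply, smul_eq_mul, Finsupp.add_apply, Finsupp.tsub_apply]
      obtain ⟨t, ht⟩ := Nat.exists_eq_add_of_le h1
      rw [ht, Nat.add_sub_cancel_left, mul_add, add_assoc, Nat.add_sub_cancel_left]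
    · rw [if_neg h, if_neg (fun h' => h (hiff.1 h')), map_zero]

end H503R3.FR.SFR474

namespace H503R3.FR

open H503R3.FR.SFR474

theorem SFR474.taskSFR : TaskSFR := by
  classical
  intro k _ _ _ c hc
  haveI : ExpChar k 2 := ExpChar.prime Nat.prime_two
  haveI : PerfectRing k 2 := inferInstance
  obtain ⟨m₀, hm₀⟩ : ∃ m₀, coeff m₀ c ≠ 0 := by
    by_contra h
    push Not at h
    exact hc (by ext m; rw [h m, coeff_zero])
  refine ⟨c.totalDegree, fun e he => ?_⟩
  set q := 2 ^ e with hqdef
  have hq : 0 < q := pow_pos two_pos e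
  have hdeg : c.totalDegree < q := lt_of_le_of_lt he Nat.lt_two_pow_self
  have hsupp : ∀ m : Fin 3 →₀ ℕ, coeff m c ≠ 0 → ∀ i, m i < q := by
    intro m hm i
    have h1 : m i ≤ m.sum fun _ e => e := by
      by_cases hi : i ∈ m.support
      · exact Finset.single_le_sum (f := fun i => m i) (fun _ _ => Nat.zero_le _) hi
      · rw [Finsupp.notMem_support_iff.1 hi]; exact Nat.zero_le _
    have h2 : (m.sum fun _ e => e) ≤ c.totalDegree := le_totalDegree (mem_support_iff.2 hm)
    omega
  let F := iterateFrobeniusEquiv k 2 e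
  let rt : k →+ k := (F.symm : k ≃+* k).toAddEquiv.toAddMonoidHom
  have hrt : ∀ x y : k, rt (x ^ q * y) = x * rt y := by
    intro x y
    change F.symm (x ^ q * y) = x * F.symm y
    rw [map_mul]
    congr 1
    rw [← iterateFrobeniusEquiv_def k 2 e x]
    exact F.symm_apply_apply x
  haveI : CharP (D k) 2 := inferInstance
  have hadd : ∀ a b : D k, (a + b) ^ q = a ^ q + b ^ q := by
    intro a b
    haveI : ExpChar (D k) 2 := ExpChar.prime Nat.prime_two
    exact add_pow_expChar_pow a b 2 e
  set κ := rt (coeff m₀ c) with hκ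
  have hκ0 : κ ≠ 0 := by
    intro h
    apply hm₀
    have : F.symm (coeff m₀ c) = F.symm 0 := by rw [map_zero]; exact h
    exact F.symm.injective this
  have hphic : phi hq m₀ rt c = C κ := by
    ext m
    rw [coeff_phi, coeff_C]
    split_ifs with h
    · subst h
      rw [g, smul_zero, zero_add]
    · have hz : coeff (g q m₀ m) c = 0 := by
        by_contra hne
        apply h
        ext i
        have h1 := hsupp _ hne i
        simp only [g, Finsupp.smul_apply, smul_eq_mul, Finsupp.add_apply] at h1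
        rw [Finsupp.zero_apply]
        by_contra h2
        have h3 : 0 < m i := by omega
        have h4 : q * 1 ≤ q * m i := Nat.mul_le_mul_left q h3
        omega
      rw [hz, map_zero]
  refine ⟨(AddMonoidHom.mulLeft (C κ⁻¹)).comp (phi hq m₀ rt), ?_, ?_⟩
  · intro a d
    simp only [AddMonoidHom.comp_apply, AddMonoidHom.coe_mulLeft]
    rw [phi_mul hq m₀ (hsupp m₀ hm₀) rt hrt hadd]
    ring
  · simp only [AddMonoidHom.comp_apply, AddMonoidHom.coe_mulLeft]
    rw [hphic, ← C_mul, inv_mul_cancel₀ hκ0, C_1]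

end H503R3.FR
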